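import Pool.Agent.H560.SI.Stm

/-!
# Task VL (project SI of helper560, MP_31d0eb_nt): Mertens' product over `F_q[X]`, lower bound
(helper155).

`(1 - q ^ (-j)) ^ N_j ≥ 1 - N_j q ^ (-j) ≥ 1 - 1 / j` by Bernoulli's inequality, and
`∏_{2 ≤ j ≤ m} (1 - 1 / j) = 1 / m`.
-/

set_option autoImplicit false

namespace Pool.Agent.H155.SI

open Polynomial Finset
open scoped Classical
open Pool.Agent.H694.Typ
open Pool.Agent.H560.SI

section
variable {K : Type} [Field K] [Fintype K]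

theorem prod_PU (D : ℕ) (f : K[X] → ℝ) :
    ∏ P ∈ PU K D, f P = ∏ j ∈ Finset.Icc 1 D, ∏ P ∈ Irn K j, f P := by
  unfold PU
  rw [prod_biUnion]
  intro a _ b _ hab
  rw [Function.onFun, Finset.disjoint_left]
  intro P hP hP'
  exact hab ((mem_Irn.1 hP).2.1.symm.trans (mem_Irn.1 hP').2.1)

theorem prod_Irn (j : ℕ) : ∏ P ∈ Irn K j, (1 - 1 / (Fintype.card K : ℝ) ^ P.natDegree) =
    (1 - 1 / (Fintype.card K : ℝ) ^ j) ^ (Irn K j).card := by
  rw [prod_congr rfl (fun P hP => by rw [(mem_Irn.1 hP).2.1]), prod_const]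

theorem prod_Irn_ge {j : ℕ} (hj : 1 ≤ j) : 1 - 1 / (j : ℝ) ≤
    ∏ P ∈ Irn K j, (1 - 1 / (Fintype.card K : ℝ) ^ P.natDegree) := by
  rw [prod_Irn]
  have hq := q_ge (k := K)
  have hpos : (0 : ℝ) < (Fintype.card K : ℝ) ^ j := by positivity
  have hj0 : (0 : ℝ) < j := by exact_mod_cast hj
  have h1 : (j : ℝ) * (Irn K j).card ≤ (Fintype.card K : ℝ) ^ j := by
    exact_mod_cast irn_one_le (k := K) (d := j) hj
  have h2 : (1 : ℝ) ≤ (Fintype.card K : ℝ) ^ j := one_le_pow₀ (by linarith)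
  have h3 : 1 / (Fintype.card K : ℝ) ^ j ≤ 1 := by
    rw [div_le_one hpos]
    exact h2
  have h4 := one_add_mul_le_pow (a := -(1 / (Fintype.card K : ℝ) ^ j)) (by linarith)
    (Irn K j).card
  have h5 : ((Irn K j).card : ℝ) * (1 / (Fintype.card K : ℝ) ^ j) ≤ 1 / (j : ℝ) := by
    rw [mul_one_div, div_le_div_iff₀ hpos hj0]
    linarith
  have h6 : (1 : ℝ) + -(1 / (Fintype.card K : ℝ) ^ j) = 1 - 1 / (Fintype.card K : ℝ) ^ j := by ring
  rw [h6] at h4
  linarith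

end

/-- **Task VL.** -/
theorem vl : S_vl := by
  intro K _ _
  have hq := q_ge (k := K)
  have hx : (0 : ℝ) < 1 - 1 / (Fintype.card K : ℝ) ^ 1 := by
    rw [pow_one, sub_pos, div_lt_one (by linarith)]
    linarith
  refine ⟨(1 - 1 / (Fintype.card K : ℝ) ^ 1) ^ (Irn K 1).card, pow_pos hx _, fun m hm => ?_⟩
  rw [prod_PU]
  induction m, hm using Nat.le_induction with
  | base =>
    rw [Finset.Icc_self, prod_singleton, prod_Irn, Nat.cast_one, div_one]
  | succ m hm ih =>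
    rw [Finset.prod_Icc_succ_top (by omega)]
    have hm0 : (0 : ℝ) < m := by exact_mod_cast hm
    have h1 := prod_Irn_ge (K := K) (j := m + 1) (by omega)
    have h2 : (0 : ℝ) ≤ (1 - 1 / (Fintype.card K : ℝ) ^ 1) ^ (Irn K 1).card := (pow_pos hx _).le
    have h3 : (0 : ℝ) ≤ 1 - 1 / ((m + 1 : ℕ) : ℝ) := by
      push_cast
      rw [sub_nonneg, div_le_one (by linarith)]
      linarith
    calc (1 - 1 / (Fintype.card K : ℝ) ^ 1) ^ (Irn K 1).card / ((m + 1 : ℕ) : ℝ)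
        = (1 - 1 / (Fintype.card K : ℝ) ^ 1) ^ (Irn K 1).card / m * (1 - 1 / ((m + 1 : ℕ) : ℝ)) := by
          push_cast
          field_simp
          ring
      _ ≤ _ := mul_le_mul ih h1 h3 (le_trans (div_nonneg h2 hm0.le) ih)

end Pool.Agent.H155.SI
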